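import Pool.Agent.H94.C1.Targets

/-!
# (APX) approximation of the hyperboloid by bounded graphs
-/

set_option autoImplicit false

namespace Pool.Agent.H18.C1

open MeasureTheory Set Pool.Agent.H82.KL Pool.Agent.H94.C1

namespace APX

/-- `1 + |x|²` -/
noncomputable def uu {d : ℕ} (x : EE d) : ℝ := 1 + ‖x‖ ^ 2

/-- the approximation -/
noncomputable def ps {d : ℕ} (ε : ℝ) (x : EE d) : ℝ := Real.sqrt (uu x / (1 + ε * uu x))

lemma uu_pos {d : ℕ} (x : EE d) : 1 ≤ uu x := by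
  unfold uu
  have := sq_nonneg ‖x‖
  linarith

lemma den_pos {d : ℕ} {ε : ℝ} (hε : 0 ≤ ε) (x : EE d) : 1 ≤ 1 + ε * uu x := by
  have := mul_nonneg hε (zero_le_one.trans (uu_pos x))
  linarith

lemma arg_pos {d : ℕ} {ε : ℝ} (hε : 0 ≤ ε) (x : EE d) : 0 < uu x / (1 + ε * uu x) :=
  div_pos (by linarith [uu_pos x]) (by linarith [den_pos hε x])

lemma ps_pos {d : ℕ} {ε : ℝ} (hε : 0 ≤ ε) (x : EE d) : 0 < ps ε x :=
  Real.sqrt_pos.2 (arg_pos hε x)

lemma hasFDerivAt_uu {d : ℕ} (x : EE d) :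
    HasFDerivAt (uu (d := d)) ((2 : ℝ) • innerSL ℝ x) x := by
  have h := ((hasStrictFDerivAt_norm_sq x).hasFDerivAt).const_add 1
  have e : (2 : ℝ) • innerSL ℝ x = 2 • innerSL ℝ x := by
    rw [two_smul, two_nsmul]
  rw [e]
  exact h

/-- the real function -/
lemma hasDerivAt_w {ε u : ℝ} (hε : 0 ≤ ε) (hu : 0 < u) :
    HasDerivAt (fun u : ℝ => Real.sqrt (u / (1 + ε * u)))
      ((2 * ((1 + ε * u) ^ 2 * Real.sqrt (u / (1 + ε * u))))⁻¹) u := by
  have hd : 0 < 1 + ε * u := by positivity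
  have h2 : HasDerivAt (fun u : ℝ => 1 + ε * u) ε u := by
    simpa using ((hasDerivAt_id u).const_mul ε).const_add 1
  have h1 := ((hasDerivAt_id u).div h2 hd.ne').sqrt (div_pos hu hd).ne'
  have h4 : Real.sqrt (u / (1 + ε * u)) ≠ 0 := (Real.sqrt_pos.2 (div_pos hu hd)).ne'
  refine h1.congr_deriv ?_
  simp only [id, Pi.div_apply]
  field_simp
  ring

lemma hasFDerivAt_ps {d : ℕ} {ε : ℝ} (hε : 0 ≤ ε) (x : EE d) :
    HasFDerivAt (ps (d := d) ε) (((1 + ε * uu x) ^ 2 * ps ε x)⁻¹ • innerSL ℝ x) x := by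
  have h := (hasDerivAt_w hε (zero_lt_one.trans_le (uu_pos x))).comp_hasFDerivAt x
    (hasFDerivAt_uu x)
  have h4 : ps ε x ≠ 0 := (ps_pos hε x).ne'
  have h5 : (1 + ε * uu x) ≠ 0 := by linarith [den_pos hε x]
  refine h.congr_fderiv ?_
  rw [smul_smul]
  congr 1
  show (2 * ((1 + ε * uu x) ^ 2 * ps ε x))⁻¹ * 2 = _
  field_simp

lemma fderiv_ps {d : ℕ} {ε : ℝ} (hε : 0 ≤ ε) (x : EE d) :
    fderiv ℝ (ps (d := d) ε) x = ((1 + ε * uu x) ^ 2 * ps ε x)⁻¹ • innerSL ℝ x :=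
  (hasFDerivAt_ps hε x).fderiv

lemma sq_ps {d : ℕ} {ε : ℝ} (hε : 0 ≤ ε) (x : EE d) :
    ps ε x ^ 2 = uu x / (1 + ε * uu x) := Real.sq_sqrt (arg_pos hε x).le

lemma norm_fderiv_ps {d : ℕ} {ε : ℝ} (hε : 0 ≤ ε) (x : EE d) :
    ‖fderiv ℝ (ps (d := d) ε) x‖ ≤ 1 := by
  have hp := ps_pos hε x
  have hd : 0 < 1 + ε * uu x := by linarith [den_pos hε x]
  rw [fderiv_ps hε, norm_smul, innerSL_apply_norm, norm_inv, Real.norm_eq_abs,
    abs_of_pos (by positivity), inv_mul_le_iff₀ (by positivity), mul_one]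
  refine abs_le_of_sq_le_sq' ?_ (by positivity) |>.2
  have h1 : ((1 + ε * uu x) ^ 2 * ps ε x) ^ 2 = (1 + ε * uu x) ^ 3 * uu x := by
    rw [mul_pow, sq_ps hε]
    field_simp
  rw [h1]
  have h2 : (1 : ℝ) ≤ (1 + ε * uu x) ^ 3 := one_le_pow₀ (den_pos hε x)
  have h3 : ‖x‖ ^ 2 ≤ uu x := by unfold uu; linarith
  calc ‖x‖ ^ 2 ≤ uu x := h3
    _ = 1 * uu x := (one_mul _).symm
    _ ≤ _ := mul_le_mul_of_nonneg_right h2 (by linarith [uu_pos x])

lemma continuous_uu {d : ℕ} : Continuous (uu (d := d)) := by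
  unfold uu
  fun_prop

lemma continuous_ps {d : ℕ} {ε : ℝ} (hε : 0 ≤ ε) : Continuous (ps (d := d) ε) := by
  unfold ps
  refine Real.continuous_sqrt.comp (continuous_uu.div ?_ ?_)
  · exact continuous_const.add (continuous_const.mul continuous_uu)
  · intro x
    linarith [den_pos hε x]

lemma contDiff_ps {d : ℕ} {ε : ℝ} (hε : 0 ≤ ε) : ContDiff ℝ 1 (ps (d := d) ε) := by
  rw [contDiff_one_iff_fderiv]
  refine ⟨fun x => (hasFDerivAt_ps hε x).differentiableAt, ?_⟩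
  have e : fderiv ℝ (ps (d := d) ε) =
      fun x => ((1 + ε * uu x) ^ 2 * ps ε x)⁻¹ • innerSL ℝ x := by
    funext x
    exact fderiv_ps hε x
  rw [e]
  have h1 : Continuous fun x : EE d => (1 + ε * uu x) ^ 2 * ps ε x :=
    ((continuous_const.add (continuous_const.mul continuous_uu)).pow 2).mul (continuous_ps hε)
  have h2 : Continuous fun x : EE d => ((1 + ε * uu x) ^ 2 * ps ε x)⁻¹ := by
    refine h1.inv₀ fun x => ?_
    have hd : 0 < 1 + ε * uu x := by linarith [den_pos hε x]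
    have := ps_pos hε x
    positivity
  exact h2.smul (innerSL ℝ (E := EE d)).continuous

lemma ps_zero {d : ℕ} : ps (d := d) 0 = hy := by
  funext x
  unfold ps uu hy
  simp

lemma ps_le {d : ℕ} {ε : ℝ} (hε : 0 < ε) (x : EE d) : |ps ε x| ≤ Real.sqrt (ε⁻¹) := by
  rw [abs_of_pos (ps_pos hε.le x)]
  refine Real.sqrt_le_sqrt ?_
  have hd : 0 < 1 + ε * uu x := by linarith [den_pos hε.le x]
  rw [div_le_iff₀ hd, mul_add, ← mul_assoc, inv_mul_cancel₀ hε.ne']
  have : 0 < ε⁻¹ := inv_pos.2 hε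
  linarith

/-- the sequence `1/(n+1)` -/
noncomputable def en (n : ℕ) : ℝ := 1 / ((n : ℝ) + 1)

lemma en_pos (n : ℕ) : 0 < en n := by unfold en; positivity

lemma en_tendsto : Filter.Tendsto en Filter.atTop (nhds 0) :=
  tendsto_one_div_add_atTop_nhds_zero_nat

lemma ps_tendsto {d : ℕ} (x : EE d) :
    Filter.Tendsto (fun n => ps (en n) x) Filter.atTop (nhds (ps 0 x)) := by
  unfold ps
  refine (Real.continuous_sqrt.tendsto _).comp ?_
  refine tendsto_const_nhds.div ?_ (by simp)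
  exact tendsto_const_nhds.add (en_tendsto.mul tendsto_const_nhds)

lemma fderiv_ps_tendsto {d : ℕ} (x v : EE d) :
    Filter.Tendsto (fun n => fderiv ℝ (ps (en n)) x v) Filter.atTop
      (nhds (fderiv ℝ (ps 0) x v)) := by
  rw [fderiv_ps le_rfl]
  have e : (fun n => fderiv ℝ (ps (en n)) x v) =
      fun n => ((1 + en n * uu x) ^ 2 * ps (en n) x)⁻¹ * inner ℝ x v := by
    funext n
    rw [fderiv_ps (en_pos n).le]
    simp
  rw [e]
  have e2 : (((1 + 0 * uu x) ^ 2 * ps 0 x)⁻¹ • innerSL ℝ x) v =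
      ((1 + 0 * uu x) ^ 2 * ps 0 x)⁻¹ * inner ℝ x v := by simp
  rw [e2]
  refine Filter.Tendsto.mul_const _ (Filter.Tendsto.inv₀ ?_ ?_)
  · refine Filter.Tendsto.mul (Filter.Tendsto.pow ?_ 2) (ps_tendsto x)
    exact tendsto_const_nhds.add (en_tendsto.mul tendsto_const_nhds)
  · have := ps_pos (le_refl (0 : ℝ)) x
    have h : (1 + 0 * uu x) ^ 2 * ps 0 x = ps 0 x := by ring
    rw [h]
    exact this.ne'

end APX

open APX in
theorem pf_APX : T_APX := by
  intro d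
  refine ⟨fun n => ps (en n), fun n => contDiff_ps (en_pos n).le,
    fun n => ⟨_, ps_le (en_pos n)⟩, fun n => norm_fderiv_ps (en_pos n).le, ?_, ?_, ?_, ?_⟩
  · intro x
    rw [← ps_zero]
    exact ps_tendsto x
  · intro x j
    rw [← ps_zero]
    exact fderiv_ps_tendsto x _
  · rw [← ps_zero]
    exact contDiff_ps le_rfl
  · intro x j
    rw [← ps_zero, fderiv_ps le_rfl]
    simp only [zero_mul, add_zero, one_pow, one_mul, smul_apply,
      innerSL_apply_apply, smul_eq_mul]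
    rw [div_eq_inv_mul]
    congr 1
    rw [EuclideanSpace.inner_single_right]
    simp

end Pool.Agent.H18.C1
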