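import Pool.Agent.H94.C1.Targets

/-!
# (DEC) decay of waves for bounded times
-/

set_option autoImplicit false

namespace Pool.Agent.H18.C1

open MeasureTheory Set Pool.Agent.H82.KL Pool.Agent.H94.C1

theorem pf_DEC (hK : T_K1) : T_DEC := by
  intro d N B b hd hb
  obtain ⟨C, hC, h⟩ := hK d N b hd hb
  refine ⟨C * (1 + |B|) ^ N, by positivity, fun x t ht => ?_⟩
  refine (h x t).trans ?_
  have hd' : (1 : ℝ) ≤ d := by exact_mod_cast hd
  have hB : |t| ≤ |B| := ht.trans (le_abs_self B)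
  have h1 : (1 + ‖x‖ + |t|) ^ (-(((d : ℝ) - 1) / 2)) ≤ 1 := by
    refine Real.rpow_le_one_of_one_le_of_nonpos ?_ (by linarith)
    have := norm_nonneg x
    have := abs_nonneg t
    linarith
  have h2 : 1 + ‖x‖ ≤ (1 + |B|) * (1 + abs (‖x‖ - |t|)) := by
    have h3 : ‖x‖ ≤ |t| + abs (‖x‖ - |t|) := by
      have := le_abs_self (‖x‖ - |t|)
      linarith
    have h4 := abs_nonneg (‖x‖ - |t|)
    have h5 := abs_nonneg B
    nlinarith
  have h3 : ((1 + abs (‖x‖ - |t|)) ^ N)⁻¹ ≤ (1 + |B|) ^ N * ((1 + ‖x‖) ^ N)⁻¹ := by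
    rw [← div_eq_mul_inv, le_div_iff₀ (by positivity), inv_mul_le_iff₀ (by positivity), mul_comm,
      ← mul_pow]
    exact pow_le_pow_left₀ (by positivity) h2 N
  calc C * (1 + ‖x‖ + |t|) ^ (-(((d : ℝ) - 1) / 2)) * ((1 + abs (‖x‖ - |t|)) ^ N)⁻¹
      ≤ C * 1 * ((1 + |B|) ^ N * ((1 + ‖x‖) ^ N)⁻¹) := by
        refine mul_le_mul (mul_le_mul_of_nonneg_left h1 hC) h3 (by positivity) (by positivity)
    _ = C * (1 + |B|) ^ N * ((1 + ‖x‖) ^ N)⁻¹ := by ring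

end Pool.Agent.H18.C1
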