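import Pool.Agent.H94.C1.Targets

/-!
# (DER) high frequencies in terms of derivatives
-/

set_option autoImplicit false

namespace Pool.Agent.H18.C1

open MeasureTheory Set FourierTransform Pool.Agent.H82.KL Pool.Agent.H94.C1 LineDeriv
open scoped ENNReal NNReal SchwartzMap

namespace DER

/-- Fourier transform of a derivative -/
lemma fourier_pd {d : ℕ} (u : 𝓢(EE d, ℂ)) (j : Fin d) (ξ : EE d) :
    𝓕 (⇑(∂_{ei j} u : 𝓢(EE d, ℂ))) ξ =
      (2 * (Real.pi : ℂ) * Complex.I) * (((ξ j : ℝ) : ℂ) * 𝓕 (⇑u) ξ) := by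
  have h1 := SchwartzMap.fourier_lineDerivOp_eq u (ei j)
  have h2 := congrArg (fun f : 𝓢(EE d, ℂ) => f ξ) h1
  have h3 : (inner ℝ · (ei j : EE d) : EE d → ℝ).HasTemperateGrowth :=
    ((innerSL ℝ).flip (ei j)).hasTemperateGrowth
  have h4 : (inner ℝ ξ (ei j) : ℝ) = ξ j := by
    rw [EuclideanSpace.inner_single_right]
    simp
  simp only [smul_apply, SchwartzMap.smulLeftCLM_apply_apply h3, h4,
    SchwartzMap.fourier_coe] at h2
  rw [h2]
  simp

/-- the integrand of `HP` -/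
noncomputable def gg {d : ℕ} (a : EE d → ℂ) (ε lam t : ℝ) (u : EE d → ℂ) (x ξ : EE d) : ℂ :=
  H83.LS.e (inner ℝ x ξ) * ((e (ε * t * ‖ξ‖) * a (lam⁻¹ • ξ)) * 𝓕 u ξ)

lemma HP_eq {d : ℕ} (a : EE d → ℂ) (ε lam t : ℝ) (u : EE d → ℂ) (x : EE d) :
    HP a ε lam t u x = ∫ ξ, gg a ε lam t u x ξ := rfl

lemma integrable_gg {d : ℕ} {a : EE d → ℂ} (ha : Sym a) (ε lam t : ℝ) (u : 𝓢(EE d, ℂ))
    (x : EE d) : Integrable (gg a ε lam t u x) := by
  obtain ⟨hc, hcs, -⟩ := ha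
  have hac : Continuous a := hc.continuous
  obtain ⟨A, hA⟩ := hac.bounded_above_of_compact_support hcs
  have hu : Integrable (𝓕 (⇑u)) := (𝓕 u : 𝓢(EE d, ℂ)).integrable
  have huc : Continuous (𝓕 (⇑u)) := (𝓕 u : 𝓢(EE d, ℂ)).continuous
  have e1 : Continuous fun ξ : EE d => H83.LS.e (inner ℝ x ξ) := by
    unfold H83.LS.e
    fun_prop
  have e2 : Continuous fun ξ : EE d => e (ε * t * ‖ξ‖) := by
    unfold e
    fun_prop
  have hac2 : Continuous fun ξ : EE d => a (lam⁻¹ • ξ) := by fun_prop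
  have hcont : Continuous (gg a ε lam t u x) := by
    unfold gg
    exact e1.mul ((e2.mul hac2).mul huc)
  refine Integrable.mono' ((hu.norm).const_mul A) hcont.aestronglyMeasurable ?_
  refine Filter.Eventually.of_forall fun ξ => ?_
  have n1 : ‖H83.LS.e (inner ℝ x ξ)‖ = 1 := by
    unfold H83.LS.e
    exact Complex.norm_exp_ofReal_mul_I _
  have n2 : ‖e (ε * t * ‖ξ‖)‖ = 1 := by
    unfold e
    exact Complex.norm_exp_ofReal_mul_I _
  show ‖H83.LS.e (inner ℝ x ξ) * ((e (ε * t * ‖ξ‖) * a (lam⁻¹ • ξ)) * 𝓕 (⇑u) ξ)‖ ≤ _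
  rw [norm_mul, norm_mul, norm_mul, n1, n2, one_mul, one_mul]
  exact mul_le_mul_of_nonneg_right (hA _) (norm_nonneg _)

/-- one derivative -/
lemma step {d : ℕ} (a : EE d → ℂ) (j : Fin d) (ε lam t : ℝ) (u : 𝓢(EE d, ℂ)) (x : EE d)
    (hl : 0 < lam) :
    (2 * (Real.pi : ℂ) * Complex.I * (lam : ℂ)) * HP (mc j a) ε lam t u x =
      HP a ε lam t (∂_{ei j} u : 𝓢(EE d, ℂ)) x := by
  rw [HP_eq, HP_eq, ← integral_const_mul]
  refine integral_congr_ae (Filter.Eventually.of_forall fun ξ => ?_)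
  have hl' : (lam : ℂ) ≠ 0 := by exact_mod_cast hl.ne'
  simp only [gg, fourier_pd, mc]
  have h1 : (((lam⁻¹ • ξ) j : ℝ) : ℂ) = (lam : ℂ)⁻¹ * ((ξ j : ℝ) : ℂ) := by
    simp
  rw [h1]
  field_simp

/-- sum over the components -/
lemma split {d : ℕ} (hS : T_SYM) {a : EE d → ℂ} (ha : Sym a) :
    ∃ b : Fin d → EE d → ℂ, (∀ j, Sym (b j)) ∧ ∀ ξ, a ξ = ∑ j, mc j (b j) ξ := by
  obtain ⟨c, hc, hca⟩ := (hS d a ha).2.2.2.2.1
  obtain ⟨c', hc', hcc⟩ := (hS d c hc).2.2.2.2.1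
  refine ⟨fun j => mc j c', fun j => (hS d c' hc').1 j, fun ξ => ?_⟩
  rw [← hca, ← hcc]
  simp only [mn, mc]
  have h : ((‖ξ‖ : ℝ) : ℂ) * ((‖ξ‖ : ℝ) : ℂ) = ∑ j, ((ξ j : ℝ) : ℂ) * ((ξ j : ℝ) : ℂ) := by
    have h1 : ‖ξ‖ ^ 2 = ∑ j, ξ j ^ 2 := EuclideanSpace.real_norm_sq_eq ξ
    have h2 : ‖ξ‖ * ‖ξ‖ = ∑ j, ξ j * ξ j := by
      rw [← pow_two, h1]
      exact Finset.sum_congr rfl fun j _ => pow_two _
    exact_mod_cast h2
  rw [← mul_assoc, h, Finset.sum_mul]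
  exact Finset.sum_congr rfl fun j _ => by ring

lemma main (hS : T_SYM) (d K : ℕ) : ∀ a : EE d → ℂ, Sym a →
    ∃ b : (Fin K → Fin d) → EE d → ℂ, (∀ J, Sym (b J)) ∧
      ∀ (u : 𝓢(EE d, ℂ)) (lam ε t : ℝ) (x : EE d), 0 < lam →
        (2 * (Real.pi : ℂ) * Complex.I * (lam : ℂ)) ^ K * HP a ε lam t u x =
          ∑ J, HP (b J) ε lam t (∂^{fun i => (ei (J i) : EE d)} u : 𝓢(EE d, ℂ)) x := by
  induction K with
  | zero =>
    intro a ha
    refine ⟨fun _ => a, fun _ => ha, fun u lam ε t x _ => ?_⟩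
    simp
  | succ K ih =>
    intro a ha
    obtain ⟨b, hb, hab⟩ := split hS ha
    choose B hB hBu using fun j => ih (b j) (hb j)
    refine ⟨fun J => B (J (Fin.last K)) (Fin.init J), fun J => hB _ _, fun u lam ε t x hl => ?_⟩
    have h1 : HP a ε lam t u x = ∑ j, HP (mc j (b j)) ε lam t u x := by
      simp only [HP_eq]
      rw [← integral_finsetSum _ fun j _ => integrable_gg ((hS d (b j) (hb j)).1 j) ε lam t u x]
      refine integral_congr_ae (Filter.Eventually.of_forall fun ξ => ?_)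
      simp only [gg]
      rw [hab, Finset.mul_sum, Finset.sum_mul, Finset.mul_sum]
    rw [h1, pow_succ, Finset.mul_sum]
    have h2 : ∀ j, (2 * (Real.pi : ℂ) * Complex.I * (lam : ℂ)) ^ K *
        (2 * (Real.pi : ℂ) * Complex.I * (lam : ℂ)) * HP (mc j (b j)) ε lam t u x =
        ∑ J : Fin K → Fin d, HP (B j J) ε lam t
          (∂^{fun i => (ei (J i) : EE d)} (∂_{ei j} u) : 𝓢(EE d, ℂ)) x := by
      intro j
      rw [mul_assoc, step (b j) j ε lam t u x hl]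
      exact hBu j (∂_{ei j} u) lam ε t x hl
    simp only [h2]
    rw [← Fintype.sum_prod_type'
      (fun (j : Fin d) (J : Fin K → Fin d) => HP (B j J) ε lam t
          (∂^{fun i => (ei (J i) : EE d)} (∂_{ei j} u) : 𝓢(EE d, ℂ)) x)]
    refine Fintype.sum_equiv (Fin.snocEquiv fun _ => Fin d) _ _ fun p => ?_
    rw [iteratedLineDerivOp_succ_right]
    simp [Fin.snocEquiv, Fin.init_def]

end DER

open DER in
theorem pf_DER (hS : T_SYM) : T_DER := by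
  intro d K a ha
  obtain ⟨b, hb, h⟩ := main hS d K a ha
  refine ⟨b, hb, fun u => ⟨fun J => ∂^{fun i => (ei (J i) : EE d)} u, fun J x => ?_, ?_⟩⟩
  · exact SchwartzMap.iteratedLineDerivOp_eq_iteratedFDeriv
  · intro lam ε t x hl
    exact h u lam ε t x hl

end Pool.Agent.H18.C1
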