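import Pool.Agent.H94.C1.Targets

/-!
# (DIV) the integral of a derivative vanishes
-/

set_option autoImplicit false

namespace Pool.Agent.H18.C1

open MeasureTheory Set Pool.Agent.H82.KL Pool.Agent.H94.C1

theorem pf_DIV : T_DIV := by
  intro d j V hV hVi hVd
  have h1 : Differentiable ℝ V := hV.differentiable (by norm_num)
  have h := integral_mul_fderiv_eq_neg_fderiv_mul_of_integrable (μ := (volume : Measure (EE d)))
    (f := fun _ : EE d => (1 : ℝ)) (g := V) (v := ei j) (by simp) (by simpa using hVd)
    (by simpa using hVi) (fun x _ => differentiableAt_const _) (fun x _ => h1 x)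
  simpa using h

end Pool.Agent.H18.C1
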